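import Mathlib

open Set Metric EuclideanGeometry

namespace Pool.Agent.Results.MP_623bad_gt.FixedAngles

/-- the closed unit disk of the Euclidean plane -/
abbrev D : Type := closedBall (0 : ℂ) 1

lemma den_ne (s : ℝ) (hs : |s| ≤ 3) (z : D) : (5 - s * z.1 : ℂ) ≠ 0 := by
  intro h
  have h1 : (5 : ℂ) = s * z.1 := by linear_combination h
  have h2 : ‖z.1‖ ≤ 1 := mem_closedBall_zero_iff.1 z.2
  have h3 : ‖(5 : ℂ)‖ = |s| * ‖z.1‖ := by rw [h1, norm_mul, Complex.norm_real, Real.norm_eq_abs]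
  have h4 : ‖(5 : ℂ)‖ = 5 := by simp
  nlinarith [norm_nonneg z.1, abs_nonneg s]

lemma mob_mem (s : ℝ) (hs : |s| ≤ 3) (z : D) :
    (5 * z.1 - s) / (5 - s * z.1) ∈ closedBall (0 : ℂ) 1 := by
  have h2 : ‖z.1‖ ≤ 1 := mem_closedBall_zero_iff.1 z.2
  rw [mem_closedBall_zero_iff, norm_div, div_le_one (norm_pos_iff.2 (den_ne s hs z))]
  have h3 : z.1.re ^ 2 + z.1.im ^ 2 ≤ 1 := by
    have := Complex.sq_norm z.1
    rw [Complex.normSq_apply] at this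
    nlinarith [norm_nonneg z.1]
  have h4 : s ^ 2 ≤ 9 := by nlinarith [abs_nonneg s, sq_abs s]
  refine abs_le_of_sq_le_sq' ?_ (norm_nonneg _) |>.2
  rw [Complex.sq_norm, Complex.sq_norm, Complex.normSq_apply, Complex.normSq_apply]
  simp
  nlinarith [mul_nonneg (sub_nonneg.2 h3) (by linarith : (0 : ℝ) ≤ 25 - s ^ 2)]

/-- the Moebius map -/
noncomputable def mob (s : ℝ) (hs : |s| ≤ 3) (z : D) : D := ⟨_, mob_mem s hs z⟩

lemma mob_cont (s : ℝ) (hs : |s| ≤ 3) : Continuous (mob s hs) := by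
  refine Continuous.subtype_mk (Continuous.div (by fun_prop) (by fun_prop) (den_ne s hs)) _

lemma mob_inv (s : ℝ) (hs : |s| ≤ 3) (hs' : |-s| ≤ 3) (z : D) : mob (-s) hs' (mob s hs z) = z := by
  apply Subtype.ext
  have h1 := den_ne s hs z
  have h2 := den_ne (-s) hs' (mob s hs z)
  show (5 * (mob s hs z).1 - (-s : ℝ)) / (5 - (-s : ℝ) * (mob s hs z).1) = z.1
  rw [div_eq_iff h2]
  simp only [mob]
  push_cast
  have h3 := mul_inv_cancel₀ h1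
  simp only [div_eq_mul_inv]
  linear_combination (5 * z.1 - s) * h3

/-- the homeomorphism -/
noncomputable def T : D ≃ₜ D where
  toFun := mob 3 (by norm_num)
  invFun := mob (-3) (by norm_num)
  left_inv z := mob_inv 3 _ _ z
  right_inv z := by
    have := mob_inv (-3) (by norm_num) (by norm_num) z
    simpa using this
  continuous_toFun := mob_cont _ _
  continuous_invFun := mob_cont _ _

lemma key (p q : D) (hne : p ≠ q) (h : dist (T p) (T q) = dist p q) :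
    ‖(5 - 3 * p.1 : ℂ)‖ * ‖(5 - 3 * q.1 : ℂ)‖ = 16 := by
  have h1 := den_ne 3 (by norm_num) p
  have h2 := den_ne 3 (by norm_num) q
  push_cast at h1 h2
  have h3 : ((T p).1 - (T q).1) * ((5 - 3 * p.1) * (5 - 3 * q.1)) = 16 * (p.1 - q.1) := by
    show ((5 * p.1 - (3 : ℝ)) / (5 - (3 : ℝ) * p.1) - (5 * q.1 - (3 : ℝ)) / (5 - (3 : ℝ) * q.1)) * _ = _
    push_cast
    rw [div_sub_div _ _ h1 h2, div_mul_cancel₀ _ (mul_ne_zero h1 h2)]
    ring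
  have h4 := congrArg norm h3
  rw [norm_mul, norm_mul, norm_mul] at h4
  rw [Subtype.dist_eq, Subtype.dist_eq, dist_eq_norm, dist_eq_norm] at h
  have h5 : 0 < ‖p.1 - q.1‖ := norm_pos_iff.2 (sub_ne_zero.2 fun h => hne (Subtype.ext h))
  rw [h] at h4
  have h6 : ‖(16 : ℂ)‖ = 16 := by simp
  rw [h6] at h4
  nlinarith

theorem result : ∃ T : D ≃ₜ D, ∀ α : ℝ, 0 < α → α < Real.pi → ∃ ε > 0,
    ∀ p₁ p₂ p₃ : D, p₁ ≠ p₂ → p₁ ≠ p₃ → p₂ ≠ p₃ → ∠ p₂.1 p₁.1 p₃.1 = α →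
      dist (T p₁) (T p₂) = dist p₁ p₂ → dist (T p₁) (T p₃) = dist p₁ p₃ →
      dist (T p₂) (T p₃) = dist p₂ p₃ → ε ≤ dist p₂ p₃ := by
  refine ⟨T, fun α h0 hπ => ⟨8 / 3 * Real.sin α, by
    have := Real.sin_pos_of_pos_of_lt_pi h0 hπ
    positivity, ?_⟩⟩
  intro p₁ p₂ p₃ h12 h13 h23 hα e12 e13 e23
  have k12 := key _ _ h12 e12
  have k13 := key _ _ h13 e13
  have k23 := key _ _ h23 e23
  have n1 := norm_nonneg (5 - 3 * p₁.1 : ℂ)
  have n2 := norm_nonneg (5 - 3 * p₂.1 : ℂ)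
  have n3 := norm_nonneg (5 - 3 * p₃.1 : ℂ)
  have hs : ∀ p : D, ‖(5 - 3 * p.1 : ℂ)‖ = 4 → p.1 ∈ (⟨5 / 3, 4 / 3⟩ : Sphere ℂ) := by
    intro p hp
    rw [EuclideanGeometry.mem_sphere, dist_eq_norm]
    have : (p.1 - 5 / 3 : ℂ) = -(1 / 3) * (5 - 3 * p.1) := by ring
    show ‖(p.1 - 5 / 3 : ℂ)‖ = 4 / 3
    rw [this, norm_mul, hp]
    norm_num
  have a23 : ‖(5 - 3 * p₂.1 : ℂ)‖ = ‖(5 - 3 * p₃.1 : ℂ)‖ := by
    have : 0 < ‖(5 - 3 * p₁.1 : ℂ)‖ := by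
      rcases n1.eq_or_lt with h | h
      · rw [← h] at k12; norm_num at k12
      · exact h
    exact mul_left_cancel₀ this.ne' (k12.trans k13.symm)
  have a2 : ‖(5 - 3 * p₂.1 : ℂ)‖ = 4 := by
    rw [← a23] at k23
    nlinarith
  have a1 : ‖(5 - 3 * p₁.1 : ℂ)‖ = 4 := by
    rw [a2] at k12; linarith
  have : Fact (Module.finrank ℝ ℂ = 2) := ⟨Complex.finrank_real_complex⟩
  let _ : Module.Oriented ℝ ℂ (Fin 2) := ⟨Complex.orientation⟩
  have h21 : p₂.1 ≠ p₁.1 := fun h => h12 (Subtype.ext h.symm)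
  have h31 : p₃.1 ≠ p₁.1 := fun h => h13 (Subtype.ext h.symm)
  have main := Sphere.dist_div_sin_oangle_eq_two_mul_radius (hs _ a2) (hs _ a1) (hs _ (a23 ▸ a2))
    h21 (fun h => h23 (Subtype.ext h)) h31.symm
  rw [← Real.Angle.sin_toReal, Real.abs_sin_eq_sin_abs_of_abs_le_pi (Real.Angle.abs_toReal_le_pi _),
    ← angle_eq_abs_oangle_toReal h21 h31, hα,
    div_eq_iff (Real.sin_pos_of_pos_of_lt_pi h0 hπ).ne'] at main
  rw [Subtype.dist_eq, main]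
  show _ ≤ 2 * (4 / 3) * Real.sin α
  linarith

end Pool.Agent.Results.MP_623bad_gt.FixedAngles
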